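import Mathlib

/-!
# Boundary overlap ratio for congruent triangles: definitions

The Euclidean plane is `ℂ`, so that the point with coordinates `(x, y)` is `x + y i`.
-/

open MeasureTheory Set
open scoped ENNReal

namespace Pool.Agent.Helper82.Triangle

/-- The closed (filled) triangle with vertices `v 0, v 1, v 2`. -/
def triangle (v : Fin 3 → ℂ) : Set ℂ := convexHull ℝ (range v)

/-- The smallest of the three interior angles of the triangle with vertices `v 0, v 1, v 2`. -/
noncomputable def smallestAngle (v : Fin 3 → ℂ) : ℝ :=
  min (InnerProductGeometry.angle (v 1 - v 0) (v 2 - v 0))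
    (min (InnerProductGeometry.angle (v 2 - v 1) (v 0 - v 1))
      (InnerProductGeometry.angle (v 0 - v 2) (v 1 - v 2)))

/-- The boundary overlap ratio `length (∂K ∩ K') / length (∂K' ∩ K)`, where length is the
one-dimensional Hausdorff measure. -/
noncomputable def overlapRatio (K K' : Set ℂ) : ℝ≥0∞ :=
  μH[1] (frontier K ∩ K') / μH[1] (frontier K' ∩ K)

/-- `K` and `K'` overlap: their interiors intersect and they are different. -/
def Overlap (K K' : Set ℂ) : Prop :=
  (interior K ∩ interior K').Nonempty ∧ K ≠ K'

/-- `M(T)`: the supremum of the overlap ratio over all overlapping pairs of isometric copies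
of `T`. -/
noncomputable def maxRatio (T : Set ℂ) : ℝ≥0∞ :=
  sSup {r | ∃ f g : ℂ → ℂ, Isometry f ∧ Isometry g ∧ Overlap (f '' T) (g '' T) ∧
    r = overlapRatio (f '' T) (g '' T)}

end Pool.Agent.Helper82.Triangle
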