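import Pool.Agent.Helper82.Triangle.Defs

/-!
# Boundary overlap ratio for congruent triangles: the 3-4-5 example
-/

open MeasureTheory Set
open scoped ENNReal

namespace Pool.Agent.Helper82.Triangle

/-! ### The example -/

/-- vertices of the 3-4-5 triangle -/
noncomputable def vtx : Fin 3 → ℂ := ![⟨0, 0⟩, ⟨4, 0⟩, ⟨0, 3⟩]

/-- description of the triangle by inequalities -/
def setK : Set ℂ := {p | 0 ≤ p.re ∧ 0 ≤ p.im ∧ 3 * p.re + 4 * p.im ≤ 12}

/-- description of the moved triangle by inequalities -/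
def setL : Set ℂ := {p | -(1/10) ≤ p.im ∧ 4 * p.re + 3 * p.im ≤ 33/2 ∧ 4 * p.im ≤ 3 * p.re + 2}

lemma plane_ext {p q : ℂ} (h0 : p.re = q.re) (h1 : p.im = q.im) : p = q := by
  exact Complex.ext h0 h1


lemma triangle_vtx : triangle vtx = setK := by
  unfold triangle
  apply Subset.antisymm
  · apply convexHull_min
    · rintro p ⟨i, rfl⟩
      fin_cases i <;> simp [setK, vtx] <;> norm_num
    · intro p hp q hq a b ha hb hab
      simp only [setK, Set.mem_ofPred_eq, Complex.add_re, Complex.add_im, Complex.real_smul, Complex.mul_re, Complex.mul_im, Complex.ofReal_re, Complex.ofReal_im,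
    zero_mul, sub_zero, add_zero] at *
      obtain ⟨h1, h2, h3⟩ := hp
      obtain ⟨k1, k2, k3⟩ := hq
      refine ⟨by positivity, by positivity, ?_⟩
      nlinarith
  · intro p hp
    obtain ⟨h1, h2, h3⟩ := hp
    have key := (convex_convexHull ℝ (range vtx)).sum_mem (t := Finset.univ)
      (w := ![1 - p.re / 4 - p.im / 3, p.re / 4, p.im / 3]) (z := vtx)
      (by
        intro i _
        fin_cases i
        · simp; linarith
        · simp; linarith
        · simp; linarith)
      (by simp [Fin.sum_univ_three]; ring)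
      (by intro i _; exact subset_convexHull ℝ _ (mem_range_self i))
    have hp : (∑ i, (![1 - p.re / 4 - p.im / 3, p.re / 4, p.im / 3] : Fin 3 → ℝ) i • vtx i) = p := by
      apply plane_ext
      · simp [Fin.sum_univ_three, vtx]
      · simp [Fin.sum_univ_three, vtx]
    rw [hp] at key
    exact key

/-- the linear functional `p ↦ a * p.re + b * p.im` -/
noncomputable def lin (a b : ℝ) : ℂ →L[ℝ] ℝ :=
  a • Complex.reCLM + b • Complex.imCLM

lemma lin_apply (a b : ℝ) (p : ℂ) : lin a b p = a * p.re + b * p.im := by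
  simp [lin]

lemma lin_surj {a b : ℝ} (h : a ≠ 0 ∨ b ≠ 0) : Function.Surjective (lin a b) := by
  intro c
  rcases h with h | h
  · refine ⟨⟨c / a, 0⟩, ?_⟩
    rw [lin_apply]; simp; field_simp
  · refine ⟨⟨0, c / b⟩, ?_⟩
    rw [lin_apply]; simp; field_simp

lemma interior_lin {a b : ℝ} (h : a ≠ 0 ∨ b ≠ 0) (c : ℝ) :
    interior {p : ℂ | a * p.re + b * p.im ≤ c} = {p : ℂ | a * p.re + b * p.im < c} := by
  have h1 : {p : ℂ | a * p.re + b * p.im ≤ c} = (lin a b) ⁻¹' (Iic c) := by
    ext p; simp [lin_apply]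
  have h2 : {p : ℂ | a * p.re + b * p.im < c} = (lin a b) ⁻¹' (Iio c) := by
    ext p; simp [lin_apply]
  rw [h1, h2, ContinuousLinearMap.interior_preimage _ (lin_surj h), interior_Iic]

lemma closed_lin (a b c : ℝ) : IsClosed {p : ℂ | a * p.re + b * p.im ≤ c} := by
  have h1 : {p : ℂ | a * p.re + b * p.im ≤ c} = (lin a b) ⁻¹' (Iic c) := by
    ext p; simp [lin_apply]
  rw [h1]
  exact isClosed_Iic.preimage (lin a b).continuous

lemma setK_eq : setK = {p : ℂ | (-1) * p.re + 0 * p.im ≤ 0} ∩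
    ({p : ℂ | 0 * p.re + (-1) * p.im ≤ 0} ∩ {p : ℂ | 3 * p.re + 4 * p.im ≤ 12}) := by
  ext p
  simp only [setK, Set.mem_ofPred_eq, mem_inter_iff]
  constructor
  · rintro ⟨h1, h2, h3⟩; exact ⟨by linarith, by linarith, by linarith⟩
  · rintro ⟨h1, h2, h3⟩; exact ⟨by linarith, by linarith, by linarith⟩

lemma setL_eq : setL = {p : ℂ | 0 * p.re + (-1) * p.im ≤ 1/10} ∩
    ({p : ℂ | 4 * p.re + 3 * p.im ≤ 33/2} ∩ {p : ℂ | (-3) * p.re + 4 * p.im ≤ 2}) := by
  ext p
  simp only [setL, Set.mem_ofPred_eq, mem_inter_iff]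
  constructor
  · rintro ⟨h1, h2, h3⟩; exact ⟨by linarith, by linarith, by linarith⟩
  · rintro ⟨h1, h2, h3⟩; exact ⟨by linarith, by linarith, by linarith⟩

lemma interior_setK : interior setK = {p | 0 < p.re ∧ 0 < p.im ∧ 3 * p.re + 4 * p.im < 12} := by
  rw [setK_eq, interior_inter, interior_inter, interior_lin (by norm_num),
    interior_lin (by norm_num), interior_lin (by norm_num)]
  ext p
  simp only [Set.mem_ofPred_eq, mem_inter_iff]
  constructor
  · rintro ⟨h1, h2, h3⟩; exact ⟨by linarith, by linarith, by linarith⟩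
  · rintro ⟨h1, h2, h3⟩; exact ⟨by linarith, by linarith, by linarith⟩

lemma interior_setL : interior setL =
    {p | -(1/10) < p.im ∧ 4 * p.re + 3 * p.im < 33/2 ∧ 4 * p.im < 3 * p.re + 2} := by
  rw [setL_eq, interior_inter, interior_inter, interior_lin (by norm_num),
    interior_lin (by norm_num), interior_lin (by norm_num)]
  ext p
  simp only [Set.mem_ofPred_eq, mem_inter_iff]
  constructor
  · rintro ⟨h1, h2, h3⟩; exact ⟨by linarith, by linarith, by linarith⟩
  · rintro ⟨h1, h2, h3⟩; exact ⟨by linarith, by linarith, by linarith⟩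

lemma frontier_setK : frontier setK = setK \ interior setK := by
  have : IsClosed setK := by
    rw [setK_eq]; exact (closed_lin _ _ _).inter ((closed_lin _ _ _).inter (closed_lin _ _ _))
  rw [frontier, this.closure_eq]

lemma frontier_setL : frontier setL = setL \ interior setL := by
  have : IsClosed setL := by
    rw [setL_eq]; exact (closed_lin _ _ _).inter ((closed_lin _ _ _).inter (closed_lin _ _ _))
  rw [frontier, this.closure_eq]

/-- `∂K' ∩ K` is contained in a segment. -/
lemma frontier_L_inter_K :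
    frontier setL ∩ setK ⊆ segment ℝ (⟨0, 1/2⟩ : ℂ) ⟨5/3, 7/4⟩ := by
  rw [frontier_setL, interior_setL]
  rintro p ⟨⟨⟨h1, h2, h3⟩, h4⟩, ⟨k1, k2, k3⟩⟩
  simp only [Set.mem_ofPred_eq, not_and, not_lt] at h4
  have h5 := h4 (by linarith) (by linarith)
  have h6 : 4 * p.im = 3 * p.re + 2 := le_antisymm h3 h5
  have h7 : p.re ≤ 5/3 := by linarith
  rw [segment_eq_image]
  refine ⟨p.re * 3 / 5, ⟨by positivity, by linarith⟩, ?_⟩
  apply plane_ext
  · simp; ring
  · simp; linarith

lemma seg1_subset : segment ℝ (⟨0, 0⟩ : ℂ) ⟨4, 0⟩ ⊆ frontier setK ∩ setL := by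
  rw [frontier_setK, interior_setK, segment_eq_image]
  rintro p ⟨t, ⟨ht0, ht1⟩, rfl⟩
  simp only [setK, setL, Set.mem_ofPred_eq, mem_inter_iff, mem_sdiff, Complex.add_re, Complex.add_im, Complex.real_smul, Complex.mul_re, Complex.mul_im, Complex.ofReal_re, Complex.ofReal_im,
    zero_mul, sub_zero, add_zero, not_and, not_lt]
  simp
  refine ⟨⟨by linarith, by linarith⟩, by linarith, by linarith⟩

lemma seg2_subset : segment ℝ (⟨4, 0⟩ : ℂ) ⟨5/3, 7/4⟩ ⊆ frontier setK ∩ setL := by
  rw [frontier_setK, interior_setK, segment_eq_image]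
  rintro p ⟨t, ⟨ht0, ht1⟩, rfl⟩
  simp only [setK, setL, Set.mem_ofPred_eq, mem_inter_iff, mem_sdiff, Complex.add_re, Complex.add_im, Complex.real_smul, Complex.mul_re, Complex.mul_im, Complex.ofReal_re, Complex.ofReal_im,
    zero_mul, sub_zero, add_zero, not_and, not_lt]
  simp
  refine ⟨⟨⟨by linarith, by linarith, by linarith⟩, fun _ _ => by linarith⟩, by linarith,
    by linarith, by linarith⟩


lemma edist_plane (p q : ℂ) (d : ℝ) (hd : 0 ≤ d)
    (h : (p.re - q.re) ^ 2 + (p.im - q.im) ^ 2 = d ^ 2) : edist p q = ENNReal.ofReal d := by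
  rw [edist_dist, Complex.dist_eq_re_im, h, Real.sqrt_sq hd]

lemma denom_le : μH[1] (frontier setL ∩ setK) ≤ ENNReal.ofReal (25/12) := by
  refine (measure_mono frontier_L_inter_K).trans ?_
  rw [hausdorffMeasure_segment]
  rw [edist_plane _ _ (25/12) (by norm_num) (by simp; norm_num)]

lemma numer_ge : ENNReal.ofReal (83/12) ≤ μH[1] (frontier setK ∩ setL) := by
  refine le_trans ?_ (measure_mono (union_subset seg1_subset seg2_subset))
  have hmeas : MeasurableSet (segment ℝ (⟨4, 0⟩ : ℂ) ⟨5/3, 7/4⟩) := by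
    apply IsClosed.measurableSet
    apply IsCompact.isClosed
    rw [segment_eq_image]
    apply isCompact_Icc.image
    fun_prop
  have hdisj : AEDisjoint (μH[1]) (segment ℝ (⟨0, 0⟩ : ℂ) ⟨4, 0⟩)
      (segment ℝ (⟨4, 0⟩ : ℂ) ⟨5/3, 7/4⟩) := by
    have hsub : segment ℝ (⟨0, 0⟩ : ℂ) ⟨4, 0⟩ ∩
        segment ℝ (⟨4, 0⟩ : ℂ) ⟨5/3, 7/4⟩ ⊆ {⟨4, 0⟩} := by
      rintro p ⟨h1, h2⟩
      rw [segment_eq_image] at h1 h2
      obtain ⟨t, ⟨ht0, ht1⟩, rfl⟩ := h1
      obtain ⟨u, ⟨hu0, hu1⟩, hu⟩ := h2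
      have e1 := congrArg Complex.im hu
      have e0 := congrArg Complex.re hu
      simp at e0 e1
      subst e1
      rw [mem_singleton_iff]
      apply plane_ext
      · simp; linarith
      · simp
    have : NullSingletonClass (μH[1] : Measure ℂ) :=
      Measure.nullSingletonClass_hausdorff ℂ one_pos
    refine measure_mono_null hsub ?_
    exact measure_singleton _
  rw [measure_union₀ hmeas.nullMeasurableSet hdisj, hausdorffMeasure_segment,
    hausdorffMeasure_segment, edist_plane _ _ 4 (by norm_num) (by simp),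
    edist_plane _ _ (35/12) (by norm_num) (by simp; norm_num),
    ← ENNReal.ofReal_add (by norm_num) (by norm_num)]
  norm_num

/-! ### The angle -/

lemma angle_eq' {u v : ℂ} (c : ℝ) (a b : ℝ) (ha : 0 < a) (hb : 0 < b)
    (h1 : u.re ^ 2 + u.im ^ 2 = a ^ 2) (h2 : v.re ^ 2 + v.im ^ 2 = b ^ 2)
    (h3 : u.re * v.re + u.im * v.im = c * (a * b)) :
    InnerProductGeometry.angle u v = Real.arccos c := by
  unfold InnerProductGeometry.angle
  have hn : ∀ (w : ℂ) (d : ℝ), 0 < d → w.re ^ 2 + w.im ^ 2 = d ^ 2 → ‖w‖ = d := by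
    intro w d hd h
    rw [Complex.norm_eq_sqrt_sq_add_sq, h, Real.sqrt_sq hd.le]
  have hin : inner ℝ u v = c * (a * b) := by
    rw [← h3, Complex.inner]
    simp
    ring
  rw [hn u a ha h1, hn v b hb h2, hin]
  congr 1
  field_simp

lemma smallestAngle_vtx : smallestAngle vtx = Real.arccos (4/5) := by
  unfold smallestAngle
  rw [angle_eq' (u := vtx 1 - vtx 0) (v := vtx 2 - vtx 0) 0 4 3 (by norm_num) (by norm_num)
      (by simp [vtx]) (by simp [vtx]) (by simp [vtx]),
    angle_eq' (u := vtx 2 - vtx 1) (v := vtx 0 - vtx 1) (4/5) 5 4 (by norm_num) (by norm_num)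
      (by simp [vtx]; norm_num) (by simp [vtx]) (by simp [vtx]; norm_num),
    angle_eq' (u := vtx 0 - vtx 2) (v := vtx 1 - vtx 2) (3/5) 3 5 (by norm_num) (by norm_num)
      (by simp [vtx]) (by simp [vtx]; norm_num) (by simp [vtx]; norm_num)]
  have h1 : Real.arccos (4/5) ≤ Real.arccos (3/5) :=
    Real.arccos_le_arccos (by norm_num)
  have h2 : Real.arccos (4/5) ≤ Real.arccos 0 :=
    Real.arccos_le_arccos (by norm_num)
  rw [min_eq_left h1, min_eq_right h2]

lemma csc_lt : 1 / Real.sin (smallestAngle vtx / 2) < 83 / 25 := by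
  rw [smallestAngle_vtx]
  rw [Real.sin_half_eq_sqrt (Real.arccos_nonneg _)
    ((Real.arccos_le_pi _).trans (by linarith [Real.pi_pos]))]
  rw [Real.cos_arccos (by norm_num) (by norm_num)]
  rw [div_lt_iff₀ (by positivity)]
  have : (25:ℝ) / 83 < √((1 - 4 / 5) / 2) := by
    apply Real.lt_sqrt_of_sq_lt
    norm_num
  linarith

/-! ### The isometry -/

/-- the rotation -/
noncomputable def rot : ℂ := ⟨-(4/5), -(3/5)⟩

/-- the translation -/
noncomputable def tra : ℂ := ⟨12/5, 23/10⟩

lemma norm_rot : ‖rot‖ = 1 := by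
  rw [Complex.norm_eq_sqrt_sq_add_sq]
  have : rot.re ^ 2 + rot.im ^ 2 = 1 := by simp [rot]; norm_num
  rw [this, Real.sqrt_one]

/-- the motion -/
noncomputable def giso (p : ℂ) : ℂ := rot * p + tra

/-- the inverse motion -/
noncomputable def ginv (p : ℂ) : ℂ :=
  ⟨-(4/5) * (p.re - 12/5) - (3/5) * (p.im - 23/10), (3/5) * (p.re - 12/5) - (4/5) * (p.im - 23/10)⟩

lemma giso_ginv (p : ℂ) : giso (ginv p) = p := by
  apply plane_ext
  · simp [ginv, giso, rot, tra]; ring
  · simp [ginv, giso, rot, tra]; ring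

lemma giso_isometry : Isometry giso := by
  apply Isometry.of_dist_eq
  intro p q
  rw [dist_eq_norm, dist_eq_norm]
  have : giso p - giso q = rot * (p - q) := by unfold giso; ring
  rw [this, norm_mul, norm_rot, one_mul]

lemma image_setK : giso '' setK = setL := by
  ext p
  constructor
  · rintro ⟨q, ⟨h1, h2, h3⟩, rfl⟩
    simp only [setL, giso, Set.mem_ofPred_eq]
    simp [rot, tra]
    refine ⟨by linarith, by linarith, by linarith⟩
  · rintro ⟨h1, h2, h3⟩
    refine ⟨ginv p, ?_, giso_ginv p⟩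
    simp only [setK, ginv, Set.mem_ofPred_eq]
    refine ⟨by linarith, by linarith, by linarith⟩

lemma overlap_KL : Overlap setK setL := by
  constructor
  · refine ⟨⟨1, 1⟩, ?_⟩
    rw [interior_setK, interior_setL]
    constructor
    · simp; norm_num
    · simp; norm_num
  · intro h
    have : (⟨0, 3⟩ : ℂ) ∈ setK := by
      simp [setK]; norm_num
    rw [h] at this
    obtain ⟨_, _, h3⟩ := this
    simp at h3
    norm_num at h3

lemma ratio_gt : ENNReal.ofReal (1 / Real.sin (smallestAngle vtx / 2)) <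
    overlapRatio setK setL := by
  have h1 : ENNReal.ofReal (1 / Real.sin (smallestAngle vtx / 2)) < ENNReal.ofReal (83/25) :=
    (ENNReal.ofReal_lt_ofReal_iff (by norm_num)).2 csc_lt
  refine h1.trans_le ?_
  have h2 : ENNReal.ofReal (83/12) / ENNReal.ofReal (25/12) ≤ overlapRatio setK setL :=
    ENNReal.div_le_div numer_ge denom_le
  refine le_trans (le_of_eq ?_) h2
  rw [← ENNReal.ofReal_div_of_pos (by norm_num)]
  norm_num

lemma affineIndependent_vtx : AffineIndependent ℝ vtx := by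
  unfold vtx
  rw [affineIndependent_iff_not_collinear_set]
  intro h
  rw [collinear_iff_of_mem (p₀ := (⟨0, 0⟩ : ℂ)) (by simp)] at h
  obtain ⟨w, hw⟩ := h
  obtain ⟨r, hr⟩ := hw ⟨4, 0⟩ (by simp)
  obtain ⟨s, hs⟩ := hw ⟨0, 3⟩ (by simp)
  have hr0 := congrArg Complex.re hr
  have hr1 := congrArg Complex.im hr
  have hs1 := congrArg Complex.im hs
  simp at hr0 hr1 hs1
  rcases hr1 with h | h
  · rw [h] at hr0; norm_num at hr0
  · rw [h] at hs1; norm_num at hs1

/-- The main result. -/
theorem main : ∃ v : Fin 3 → ℂ, AffineIndependent ℝ v ∧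
    ENNReal.ofReal (1 / Real.sin (smallestAngle v / 2)) < maxRatio (triangle v) ∧
    ∃ a t : ℂ, ‖a‖ = 1 ∧ Overlap (triangle v) ((fun z => a * z + t) '' triangle v) ∧
      ENNReal.ofReal (1 / Real.sin (smallestAngle v / 2)) <
        overlapRatio (triangle v) ((fun z => a * z + t) '' triangle v) := by
  have himg : (fun z => rot * z + tra) '' setK = setL := image_setK
  refine ⟨vtx, affineIndependent_vtx, ?_, rot, tra, norm_rot, ?_, ?_⟩
  · have hid : (id : ℂ → ℂ) '' setK = setK := image_id _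
    refine ratio_gt.trans_le (le_sSup ⟨id, giso, isometry_id, giso_isometry, ?_, ?_⟩)
    · rw [triangle_vtx, image_setK, hid]
      exact overlap_KL
    · rw [triangle_vtx, image_setK, hid]
  · rw [triangle_vtx, himg]
    exact overlap_KL
  · rw [triangle_vtx, himg]
    exact ratio_gt

end Pool.Agent.Helper82.Triangle
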